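import Mathlib

open Polynomial WeierstrassCurve

namespace Pool.Agent.Results.MP_aa83bd_nt.FourCopies

noncomputable section

/-- `IsFunctionField f K` says that `K` is the function field `ℚ(C)` of the hyperelliptic curve
`C : s² = f(t)` over `ℚ`: it is generated over `ℚ` by two elements `t`, `s` with `t`
transcendental over `ℚ` and `s² = f(t)`. -/
def IsFunctionField (f : ℚ[X]) (K : Type) [Field K] [Algebra ℚ K] : Prop :=
  ∃ t s : K, Transcendental ℚ t ∧ s ^ 2 = aeval t f ∧ IntermediateField.adjoin ℚ {t, s} = ⊤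

/-- `JacobianContainsPower f E r` says that `E ^ r` is an isogeny factor over `ℚ` of the Jacobian
`J(C)` of `C : s² = f(t)`, i.e. that `J(C)` contains `r` copies of `E`, expressed through morphisms
from the curve. With `K = ℚ(C)` the group `E(K)` is the group of `ℚ`-morphisms `C → E`, its subgroup
`E(ℚ)` is that of constant morphisms, and `E(K) / E(ℚ)` embeds with finite index in
`Hom_ℚ(J(C), E)`, a free abelian group whose rank is the largest `r` such that `E ^ r` is an isogeny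
factor of `J(C)` (as `End_ℚ(E) = ℤ`). The condition is that `E(K) / E(ℚ)` contains `r` elements
that are linearly independent over `ℤ`. -/
def JacobianContainsPower (f : ℚ[X]) (E : WeierstrassCurve ℚ) (r : ℕ) : Prop :=
  ∃ (K : Type) (_ : Field K) (_ : DecidableEq K) (_ : Algebra ℚ K), IsFunctionField f K ∧
    ∃ P : Fin r → (E⁄K).toAffine.Point, ∀ n : Fin r → ℤ,
      (∃ Q : (E⁄ℚ).toAffine.Point, ∑ i, n i • P i = Affine.Point.baseChange ℚ K Q) → n = 0

/-- The polynomial `a = t² - 2t - 1`. -/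
def aP : ℚ[X] := X ^ 2 - 2 * X - 1

/-- The polynomial `b = t² + 2t - 1`. -/
def bP : ℚ[X] := X ^ 2 + 2 * X - 1

/-- The polynomial `c = t² + 1`; one has `a² + b² = 2c²`. -/
def cP : ℚ[X] := X ^ 2 + 1

/-- The polynomial `f = 64 c¹² - 48 c⁸ (ab)² + 1137 c⁴ (ab)⁴ - (ab)⁶` of degree `24`. -/
def fPoly : ℚ[X] :=
  64 * cP ^ 12 - 48 * cP ^ 8 * (aP * bP) ^ 2 + 1137 * cP ^ 4 * (aP * bP) ^ 4 - (aP * bP) ^ 6

/-- The elliptic curve `y² = x³ + 1134 x² - 2223 x + 1152` over `ℚ`,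
of `j`-invariant `-189613868625/128`. -/
def E0 : WeierstrassCurve ℚ := ⟨0, 1134, 0, -2223, 1152⟩

section delta

variable {K : Type} [Field K] [Algebra ℚ K] (D : Derivation ℚ K K) (W : WeierstrassCurve K)

/-- The invariant differential of `W` contracted with the derivation `D`, evaluated at a point. -/
noncomputable def delta : W.toAffine.Point → K
  | .zero => 0
  | .some x y _ => D x / y

variable {W}

theorem dy_of_dx [CharZero K] (h1 : W.a₁ = 0) (h3 : W.a₃ = 0) (d2 : D W.a₂ = 0) (d4 : D W.a₄ = 0)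
    (d6 : D W.a₆ = 0) {x y : K} (h : W.toAffine.Nonsingular x y) :
    D x = y * (D x / y) ∧ D y = (3 * x ^ 2 + 2 * W.a₂ * x + W.a₄) * (D x / y) / 2 := by
  have heq := (Affine.equation_iff _ _).1 h.1
  rw [h1, h3] at heq
  have hD : 2 * y * D y = (3 * x ^ 2 + 2 * W.a₂ * x + W.a₄) * D x := by
    have := congrArg D heq
    simp only [map_add, Derivation.leibniz, Derivation.leibniz_pow, smul_eq_mul, d2, d4, d6,
      nsmul_eq_mul] at this
    simp at this
    linear_combination this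
  have hns := ((Affine.nonsingular_iff _ _).1 h).2
  rw [h1, h3] at hns
  by_cases hy : y = 0
  · subst hy
    simp at hns
    have hx : D x = 0 := by
      have : (3 * x ^ 2 + 2 * W.a₂ * x + W.a₄) * D x = 0 := by rw [← hD]; ring
      rcases mul_eq_zero.1 this with h' | h'
      · exact absurd h'.symm hns
      · exact h'
    simp [hx]
  · constructor
    · field_simp
    · field_simp
      linear_combination hD

theorem eq_of_dx_dy [CharZero K] (h1 : W.a₁ = 0) (h3 : W.a₃ = 0) {x y u : K}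
    (h : W.toAffine.Nonsingular x y) (hx : D x = y * u)
    (hy : D y = (3 * x ^ 2 + 2 * W.a₂ * x + W.a₄) * u / 2) : D x / y = u := by
  have hns := ((Affine.nonsingular_iff _ _).1 h).2
  rw [h1, h3] at hns
  by_cases hy0 : y = 0
  · subst hy0
    simp at hns
    have : (3 * x ^ 2 + 2 * W.a₂ * x + W.a₄) * u = 0 := by
      rw [map_zero] at hy
      linear_combination -2 * hy
    rcases mul_eq_zero.1 this with h' | h'
    · exact absurd h'.symm hns
    · simp [h']
  · rw [hx]; field_simp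

/-- chord case -/
theorem chord {a2 a4 a6 x1 y1 x2 y2 u1 u2 l x3 y3 : K} (d2 : D a2 = 0) [CharZero K]
    (e1 : y1 ^ 2 = x1 ^ 3 + a2 * x1 ^ 2 + a4 * x1 + a6)
    (e2 : y2 ^ 2 = x2 ^ 3 + a2 * x2 ^ 2 + a4 * x2 + a6)
    (hx1 : D x1 = y1 * u1) (hx2 : D x2 = y2 * u2)
    (hy1 : D y1 = (3 * x1 ^ 2 + 2 * a2 * x1 + a4) * u1 / 2)
    (hy2 : D y2 = (3 * x2 ^ 2 + 2 * a2 * x2 + a4) * u2 / 2) (hne : x1 ≠ x2)
    (hl : l = (y1 - y2) / (x1 - x2)) (hx3 : x3 = l ^ 2 - a2 - x1 - x2)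
    (hy3 : y3 = -(l * (x3 - x1) + y1)) :
    D x3 = y3 * (u1 + u2) ∧ D y3 = (3 * x3 ^ 2 + 2 * a2 * x3 + a4) * (u1 + u2) / 2 := by
  have hne' : x1 - x2 ≠ 0 := sub_ne_zero.2 hne
  have hl' : l * (x1 - x2) = y1 - y2 := by rw [hl]; field_simp
  have hDl : D l * (x1 - x2) = D y1 - D y2 - l * (D x1 - D x2) := by
    have := congrArg D hl'
    simp only [Derivation.leibniz, map_sub, smul_eq_mul] at this
    linear_combination this
  have h4 : a4 * (x1 - x2) = ((y1 ^ 2 - y2 ^ 2) - (x1 ^ 3 - x2 ^ 3) - a2 * (x1 ^ 2 - x2 ^ 2)) := by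
    linear_combination e2 - e1
  have hDx3 : D x3 = 2 * l * D l - D x1 - D x2 := by
    rw [hx3]
    simp only [map_sub, Derivation.leibniz_pow, smul_eq_mul, nsmul_eq_mul, d2]
    simp
    ring
  have hDy3 : D y3 = -(D l * (x3 - x1) + l * (D x3 - D x1) + D y1) := by
    rw [hy3]
    simp only [map_sub, map_neg, map_add, Derivation.leibniz, smul_eq_mul]
    ring
  obtain ⟨d, hd⟩ : ∃ d, d = x1 - x2 := ⟨_, rfl⟩
  have hx1' : x1 = x2 + d := by rw [hd]; ring
  have hy1' : y1 = y2 + l * d := by rw [hd]; linear_combination -hl'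
  have hd0 : d ≠ 0 := by rw [hd]; exact hne'
  rw [← hd] at hDl h4
  have h4' : a4 = ((y1 ^ 2 - y2 ^ 2) - (x1 ^ 3 - x2 ^ 3) - a2 * (x1 ^ 2 - x2 ^ 2)) / d := by
    field_simp; exact h4
  have hDl' : D l = (D y1 - D y2 - l * (D x1 - D x2)) / d := by
    field_simp; exact hDl
  have key : D x3 = y3 * (u1 + u2) := by
    rw [hDx3, hDl', hy1, hy2, hx1, hx2, h4', hy3, hx3, hy1', hx1']
    field_simp
    ring
  refine ⟨key, ?_⟩
  rw [hDy3, key, hDl', hy1, hy2, hx1, hx2, h4', hy3, hx3, hy1', hx1']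
  field_simp
  ring

/-- tangent case -/
theorem tangent {a2 a4 x1 y1 u1 l x3 y3 : K} (d2 : D a2 = 0) (d4 : D a4 = 0) [CharZero K]
    (hx1 : D x1 = y1 * u1)
    (hy1 : D y1 = (3 * x1 ^ 2 + 2 * a2 * x1 + a4) * u1 / 2) (hne : y1 ≠ 0)
    (hl : l = (3 * x1 ^ 2 + 2 * a2 * x1 + a4) / (2 * y1)) (hx3 : x3 = l ^ 2 - a2 - x1 - x1)
    (hy3 : y3 = -(l * (x3 - x1) + y1)) :
    D x3 = y3 * (u1 + u1) ∧ D y3 = (3 * x3 ^ 2 + 2 * a2 * x3 + a4) * (u1 + u1) / 2 := by
  have hl' : l * (2 * y1) = 3 * x1 ^ 2 + 2 * a2 * x1 + a4 := by rw [hl]; field_simp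
  have hDl : D l * (2 * y1) = (6 * x1 + 2 * a2) * D x1 - l * (2 * D y1) := by
    have := congrArg D hl'
    have h2 : D (2 : K) = 0 := by simpa using D.map_natCast 2
    have h3 : D (3 : K) = 0 := by simpa using D.map_natCast 3
    simp only [Derivation.leibniz, Derivation.leibniz_pow, map_add, smul_eq_mul, nsmul_eq_mul, d2,
      d4, h2, h3] at this
    simp at this
    linear_combination this
  have hDx3 : D x3 = 2 * l * D l - D x1 - D x1 := by
    rw [hx3]
    simp only [map_sub, Derivation.leibniz_pow, smul_eq_mul, nsmul_eq_mul, d2]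
    simp
    ring
  have hDy3 : D y3 = -(D l * (x3 - x1) + l * (D x3 - D x1) + D y1) := by
    rw [hy3]
    simp only [map_sub, map_neg, map_add, Derivation.leibniz, smul_eq_mul]
    ring
  have h4' : a4 = l * (2 * y1) - 3 * x1 ^ 2 - 2 * a2 * x1 := by linear_combination -hl'
  have hDl' : D l = ((6 * x1 + 2 * a2) * D x1 - l * (2 * D y1)) / (2 * y1) := by
    field_simp; linear_combination hDl
  have key : D x3 = y3 * (u1 + u1) := by
    rw [hDx3, hDl', hy1, hx1, h4', hy3, hx3]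
    field_simp
    ring
  refine ⟨key, ?_⟩
  rw [hDy3, key, hDl', hy1, hx1, h4', hy3, hx3]
  field_simp
  ring

variable [DecidableEq K] [CharZero K]

/-- `delta` is additive. -/
theorem delta_add (h1 : W.a₁ = 0) (h3 : W.a₃ = 0) (d2 : D W.a₂ = 0) (d4 : D W.a₄ = 0)
    (d6 : D W.a₆ = 0) (P Q : W.toAffine.Point) :
    delta D W (P + Q) = delta D W P + delta D W Q := by
  rcases P with _ | ⟨x1, y1, n1⟩
  · rw [← Affine.Point.zero_def, zero_add]
    simp [delta]
  rcases Q with _ | ⟨x2, y2, n2⟩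
  · rw [← Affine.Point.zero_def, add_zero]
    simp [delta]
  obtain ⟨hx1, hy1⟩ := dy_of_dx D h1 h3 d2 d4 d6 n1
  obtain ⟨hx2, hy2⟩ := dy_of_dx D h1 h3 d2 d4 d6 n2
  have e1 := (Affine.equation_iff _ _).1 n1.1
  have e2 := (Affine.equation_iff _ _).1 n2.1
  rw [h1, h3] at e1 e2
  simp only [zero_mul, add_zero] at e1 e2
  by_cases hxy : x1 = x2 ∧ y1 = W.toAffine.negY x2 y2
  · rw [Affine.Point.add_of_Y_eq hxy.1 hxy.2]
    obtain ⟨rfl, hy⟩ := hxy
    simp only [Affine.negY, h1, h3, zero_mul, sub_zero] at hy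
    subst hy
    simp [delta, div_neg]
  · rw [Affine.Point.add_some hxy]
    have n3 := Affine.nonsingular_add n1 n2 hxy
    simp only [delta]
    by_cases hx : x1 = x2
    · subst hx
      have hy : y1 ≠ W.toAffine.negY x1 y2 := fun h => hxy ⟨rfl, h⟩
      have hyy : y1 = y2 := Affine.Y_eq_of_Y_ne n1.1 n2.1 rfl hy
      subst hyy
      have hy0 : y1 ≠ 0 := by
        intro h
        apply hy
        simp [Affine.negY, h1, h3, h]
      have hl : W.toAffine.slope x1 x1 y1 y1 =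
          (3 * x1 ^ 2 + 2 * W.a₂ * x1 + W.a₄) / (2 * y1) := by
        rw [Affine.slope_of_Y_ne rfl hy]
        simp only [Affine.negY, h1, h3, zero_mul, sub_zero]
        congr 1
        ring
      have := tangent D (l := W.toAffine.slope x1 x1 y1 y1)
        (x3 := W.toAffine.addX x1 x1 (W.toAffine.slope x1 x1 y1 y1))
        (y3 := W.toAffine.addY x1 x1 y1 (W.toAffine.slope x1 x1 y1 y1)) d2 d4 hx1 hy1 hy0 hl
        (by simp [Affine.addX, h1]) (by simp [Affine.addY, Affine.negAddY, Affine.negY, h1, h3])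
      exact eq_of_dx_dy D h1 h3 n3 this.1 this.2
    · have hl : W.toAffine.slope x1 x2 y1 y2 = (y1 - y2) / (x1 - x2) :=
        Affine.slope_of_X_ne hx
      have := chord D (l := W.toAffine.slope x1 x2 y1 y2)
        (x3 := W.toAffine.addX x1 x2 (W.toAffine.slope x1 x2 y1 y2))
        (y3 := W.toAffine.addY x1 x2 y1 (W.toAffine.slope x1 x2 y1 y2)) d2 e1 e2 hx1 hx2 hy1 hy2
        hx hl
        (by simp [Affine.addX, h1]) (by simp [Affine.addY, Affine.negAddY, Affine.negY, h1, h3])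
      exact eq_of_dx_dy D h1 h3 n3 this.1 this.2

end delta

/-- A model of the function field `ℚ(t)(√g)` of `C_g`. -/
abbrev FF (g : ℚ[X]) : Type := AdjoinRoot (X ^ 2 - C (algebraMap ℚ[X] (RatFunc ℚ) g) : (RatFunc ℚ)[X])

theorem not_sq {g : ℚ[X]} (hg : g.Separable) (hd : 0 < g.natDegree) (b : RatFunc ℚ) :
    b ^ 2 ≠ algebraMap ℚ[X] (RatFunc ℚ) g := by
  intro h
  have hint : IsIntegral ℚ[X] b := by
    refine ⟨X ^ 2 - C g, monic_X_pow_sub_C _ (by norm_num), ?_⟩
    simp [h]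
  obtain ⟨a, ha⟩ := IsIntegrallyClosed.isIntegral_iff.1 hint
  have haa : a ^ 2 = g := by
    apply IsFractionRing.injective ℚ[X] (RatFunc ℚ)
    rw [map_pow, ha, h]
  have hu : IsUnit a := hg.squarefree a ⟨1, by rw [← haa]; ring⟩
  have : g.natDegree = 0 := by
    rw [← haa]
    exact natDegree_eq_zero_of_isUnit (hu.pow 2)
  omega

theorem irr {g : ℚ[X]} (hg : g.Separable) (hd : 0 < g.natDegree) :
    Irreducible (X ^ 2 - C (algebraMap ℚ[X] (RatFunc ℚ) g) : (RatFunc ℚ)[X]) :=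
  X_pow_sub_C_irreducible_of_prime Nat.prime_two (not_sq hg hd)

theorem exists_derivation (g : ℚ[X])
    [Fact (Irreducible (X ^ 2 - C (algebraMap ℚ[X] (RatFunc ℚ) g) : (RatFunc ℚ)[X]))] :
    ∃ D : Derivation ℚ (FF g) (FF g), ∀ p : ℚ[X],
      D (algebraMap ℚ[X] (FF g) p) = algebraMap ℚ[X] (FF g) (derivative p) := by
  have e1 : Algebra.FormallyEtale ℚ[X] (RatFunc ℚ) :=
    Algebra.FormallyEtale.of_isLocalization (nonZeroDivisors ℚ[X])
  have fd : FiniteDimensional (RatFunc ℚ) (FF g) :=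
    (monic_X_pow_sub_C _ (by norm_num)).finite_adjoinRoot
  have e2 : Algebra.FormallyEtale (RatFunc ℚ) (FF g) := Algebra.FormallyEtale.of_isSeparable _ _
  have e3 : Algebra.FormallyEtale ℚ[X] (FF g) := Algebra.FormallyEtale.comp _ (RatFunc ℚ) _
  let D0 : Derivation ℚ ℚ[X] (FF g) := (Algebra.linearMap ℚ[X] (FF g)).compDer derivative'
  let l1 : TensorProduct ℚ[X] (FF g) (KaehlerDifferential ℚ ℚ[X]) →ₗ[FF g] FF g :=
    LinearMap.liftBaseChange (FF g) D0.liftKaehlerDifferential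
  let l2 : KaehlerDifferential ℚ (FF g) →ₗ[FF g] FF g :=
    l1 ∘ₗ (KaehlerDifferential.tensorKaehlerEquivOfFormallyEtale ℚ ℚ[X] (FF g)).symm.toLinearMap
  refine ⟨l2.compDer (KaehlerDifferential.D ℚ (FF g)), fun p => ?_⟩
  have h := KaehlerDifferential.tensorKaehlerEquivOfFormallyEtale_symm_D_algebraMap ℚ ℚ[X] (FF g) p
  change l1 ((KaehlerDifferential.tensorKaehlerEquivOfFormallyEtale ℚ ℚ[X] (FF g)).symm
    (KaehlerDifferential.D ℚ (FF g) (algebraMap ℚ[X] (FF g) p))) = _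
  rw [h]
  simp [l1, D0]


theorem isFunctionField (g : ℚ[X])
    [Fact (Irreducible (X ^ 2 - C (algebraMap ℚ[X] (RatFunc ℚ) g) : (RatFunc ℚ)[X]))] :
    Transcendental ℚ (algebraMap ℚ[X] (FF g) X) ∧
      (AdjoinRoot.root (X ^ 2 - C (algebraMap ℚ[X] (RatFunc ℚ) g) : (RatFunc ℚ)[X]) : FF g) ^ 2 =
        aeval (algebraMap ℚ[X] (FF g) X) g ∧
      IntermediateField.adjoin ℚ {algebraMap ℚ[X] (FF g) X,
        (AdjoinRoot.root (X ^ 2 - C (algebraMap ℚ[X] (RatFunc ℚ) g) : (RatFunc ℚ)[X]) : FF g)} = ⊤ := by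
  set s : FF g := AdjoinRoot.root (X ^ 2 - C (algebraMap ℚ[X] (RatFunc ℚ) g) : (RatFunc ℚ)[X])
    with hs
  have hinj : Function.Injective (algebraMap ℚ[X] (FF g)) := by
    rw [IsScalarTower.algebraMap_eq ℚ[X] (RatFunc ℚ) (FF g)]
    exact (algebraMap (RatFunc ℚ) (FF g)).injective.comp (IsFractionRing.injective ℚ[X] (RatFunc ℚ))
  have htr : Transcendental ℚ (algebraMap ℚ[X] (FF g) X) :=
    (transcendental_algebraMap_iff hinj).2 (Polynomial.transcendental_X ℚ)
  have hae : ∀ p : ℚ[X], aeval (algebraMap ℚ[X] (FF g) X) p = algebraMap ℚ[X] (FF g) p := by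
    intro p
    rw [aeval_algebraMap_apply, aeval_X_left_apply]
  refine ⟨htr, ?_, ?_⟩
  · rw [hae]
    have h0 := AdjoinRoot.eval₂_root (X ^ 2 - C (algebraMap ℚ[X] (RatFunc ℚ) g) : (RatFunc ℚ)[X])
    simp only [eval₂_sub, eval₂_pow, eval₂_X, eval₂_C] at h0
    have h1 := sub_eq_zero.1 h0
    rw [← hs] at h1
    rw [h1, IsScalarTower.algebraMap_apply ℚ[X] (RatFunc ℚ) (FF g)]
    rfl
  · set L := IntermediateField.adjoin ℚ {algebraMap ℚ[X] (FF g) X, s} with hL
    have ht : algebraMap ℚ[X] (FF g) X ∈ L :=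
      IntermediateField.subset_adjoin _ _ (by simp)
    have hsL : s ∈ L := IntermediateField.subset_adjoin _ _ (by simp)
    have hp : ∀ p : ℚ[X], algebraMap ℚ[X] (FF g) p ∈ L := by
      intro p
      rw [← hae p, aeval_eq_sum_range]
      refine sum_mem fun i _ => ?_
      rw [Algebra.smul_def]
      exact mul_mem (L.algebraMap_mem _) (pow_mem ht i)
    have hr : ∀ r : RatFunc ℚ, algebraMap (RatFunc ℚ) (FF g) r ∈ L := by
      intro r
      obtain ⟨a, b, -, rfl⟩ := IsFractionRing.div_surjective (A := ℚ[X]) r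
      rw [map_div₀, ← IsScalarTower.algebraMap_apply, ← IsScalarTower.algebraMap_apply]
      exact div_mem (hp a) (hp b)
    rw [eq_top_iff]
    intro y _
    induction y using AdjoinRoot.induction_on with
    | ih p =>
      rw [← AdjoinRoot.aeval_eq p, aeval_eq_sum_range]
      refine sum_mem fun i _ => ?_
      rw [Algebra.smul_def]
      exact mul_mem (hr _) (pow_mem hsL i)

theorem fPoly_natDegree : fPoly.natDegree = 24 := by
  unfold fPoly aP bP cP
  compute_degree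
  · norm_num
  all_goals norm_num

theorem cop_c_q : IsCoprime cP (aP * bP) := by
  refine ⟨-C (1/8) * (X ^ 2 - 7), C (1 / 8), Polynomial.funext fun x => ?_⟩
  simp [aP, bP, cP]
  ring

theorem cop_lin (p : ℚ[X]) (a : ℚ) (h : p.eval a ≠ 0) : IsCoprime p (X - C a) := by
  refine IsCoprime.symm ?_
  rw [(irreducible_X_sub_C a).coprime_iff_not_dvd, dvd_iff_isRoot]
  exact h

theorem unit_cop (p : ℚ[X]) (k : ℚ) (h : k ≠ 0) : IsCoprime p (C k) :=
  ⟨0, C k⁻¹, by rw [zero_mul, zero_add, ← C_mul, inv_mul_cancel₀ h, C_1]⟩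

theorem fPoly_deriv : cP * derivative fPoly - 12 * derivative cP * fPoly =
    C 32 * ((aP * bP) * ((X - C 0) * ((X - C 1) * (X - C (-1))))) *
      (-48 * cP ^ 8 + 2274 * (aP * bP) ^ 2 * cP ^ 4 - 3 * (aP * bP) ^ 4) := by
  have ha : derivative aP = 2 * X - 2 := by simp [aP]; ring
  have hb : derivative bP = 2 * X + 2 := by simp [bP]; ring
  have hc : derivative cP = 2 * X := by simp [cP]; ring
  have hw : (derivative aP * bP + aP * derivative bP) * cP - 2 * (aP * bP) * derivative cP =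
      16 * ((X - C 0) * ((X - C 1) * (X - C (-1)))) := by
    rw [ha, hb, hc]
    simp only [aP, bP, cP, map_zero, map_one, map_neg]
    ring
  have hf : derivative fPoly = 768 * cP ^ 11 * derivative cP
      - 384 * cP ^ 7 * derivative cP * (aP * bP) ^ 2
      - 96 * cP ^ 8 * (aP * bP) * (derivative aP * bP + aP * derivative bP)
      + 4548 * cP ^ 3 * derivative cP * (aP * bP) ^ 4
      + 4548 * cP ^ 4 * (aP * bP) ^ 3 * (derivative aP * bP + aP * derivative bP)
      - 6 * (aP * bP) ^ 5 * (derivative aP * bP + aP * derivative bP) := by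
    unfold fPoly
    simp only [derivative_sub, derivative_add, derivative_mul, derivative_pow, derivative_ofNat]
    simp only [map_ofNat, Nat.cast_ofNat]
    ring
  have h32 : (C 32 : ℚ[X]) = 2 * 16 := by
    rw [map_ofNat]; norm_num
  rw [hf, h32]
  unfold fPoly
  linear_combination (2 * (aP * bP) *
    (-48 * cP ^ 8 + 2274 * (aP * bP) ^ 2 * cP ^ 4 - 3 * (aP * bP) ^ 4)) * hw

theorem fPoly_separable : fPoly.Separable := by
  have hcq := cop_c_q
  have hfc : IsCoprime fPoly cP := by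
    have h1 : IsCoprime ((aP * bP) ^ 6) cP := (hcq.symm).pow_left
    have : fPoly = -(aP * bP) ^ 6 +
      (64 * cP ^ 11 - 48 * cP ^ 7 * (aP * bP) ^ 2 + 1137 * cP ^ 3 * (aP * bP) ^ 4) * cP := by
      unfold fPoly; ring
    rw [this]
    exact IsCoprime.add_mul_right_left h1.neg_left _
  have hfq : IsCoprime fPoly (aP * bP) := by
    have h1 : IsCoprime (64 * cP ^ 12) (aP * bP) := by
      refine IsCoprime.mul_left ?_ hcq.pow_left
      exact ⟨C (1/64), 0, by simp [← C_ofNat, ← C_mul]⟩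
    have : fPoly = 64 * cP ^ 12 +
      (-48 * cP ^ 8 * (aP * bP) + 1137 * cP ^ 4 * (aP * bP) ^ 3 - (aP * bP) ^ 5) * (aP * bP) := by
      unfold fPoly; ring
    rw [this]
    exact IsCoprime.add_mul_right_left h1 _
  have hf0 : IsCoprime fPoly (X - C 0) := cop_lin _ _ (by simp [fPoly, aP, bP, cP]; norm_num)
  have hf1 : IsCoprime fPoly (X - C 1) := cop_lin _ _ (by simp [fPoly, aP, bP, cP]; norm_num)
  have hf2 : IsCoprime fPoly (X - C (-1)) := cop_lin _ _ (by simp [fPoly, aP, bP, cP]; norm_num)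
  have hH : IsCoprime fPoly
      (-48 * cP ^ 8 + 2274 * (aP * bP) ^ 2 * cP ^ 4 - 3 * (aP * bP) ^ 4) := by
    have h1 : IsCoprime fPoly (C (-55296000) * cP ^ 16) :=
      (unit_cop _ _ (by norm_num)).mul_right hfc.pow_right
    have h2 : C (-55296000) * cP ^ 16 = (-9224 * cP ^ 8 + 435463 * (aP * bP) ^ 2 * cP ^ 4 -
          383 * (aP * bP) ^ 4) *
        (-48 * cP ^ 8 + 2274 * (aP * bP) ^ 2 * cP ^ 4 - 3 * (aP * bP) ^ 4) +
        fPoly * (-870918 * cP ^ 4 + 1149 * (aP * bP) ^ 2) := by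
      have : (C (-55296000) : ℚ[X]) = -55296000 := by rw [map_neg, map_ofNat]
      rw [this]
      unfold fPoly
      ring
    rw [h2] at h1
    exact (IsCoprime.of_add_mul_left_right h1).of_mul_right_right
  have key : IsCoprime fPoly (cP * derivative fPoly - 12 * derivative cP * fPoly) := by
    rw [fPoly_deriv]
    exact (((unit_cop _ _ (by norm_num)).mul_right
      (hfq.mul_right (hf0.mul_right (hf1.mul_right hf2))))).mul_right hH
  have key2 : cP * derivative fPoly - 12 * derivative cP * fPoly =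
      cP * derivative fPoly + fPoly * (-12 * derivative cP) := by ring
  rw [key2] at key
  exact (IsCoprime.of_add_mul_left_right key).of_mul_right_right

theorem aeval_aP {A : Type} [CommRing A] [Algebra ℚ A] (t : A) :
    aeval t aP = t ^ 2 - 2 * t - 1 := by
  simp [aP, map_ofNat]

theorem aeval_bP {A : Type} [CommRing A] [Algebra ℚ A] (t : A) :
    aeval t bP = t ^ 2 + 2 * t - 1 := by
  simp [bP, map_ofNat]

theorem aeval_cP {A : Type} [CommRing A] [Algebra ℚ A] (t : A) :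
    aeval t cP = t ^ 2 + 1 := by
  simp [cP]

theorem aeval_fPoly {A : Type} [CommRing A] [Algebra ℚ A] (t : A) :
    aeval t fPoly = 64 * (aeval t cP) ^ 12 - 48 * (aeval t cP) ^ 8 * (aeval t aP * aeval t bP) ^ 2 +
      1137 * (aeval t cP) ^ 4 * (aeval t aP * aeval t bP) ^ 4 -
      (aeval t aP * aeval t bP) ^ 6 := by
  simp [fPoly, map_ofNat]

instance E0_elliptic : E0.IsElliptic := by
  rw [isElliptic_iff]
  simp only [E0, WeierstrassCurve.Δ, WeierstrassCurve.b₂, WeierstrassCurve.b₄,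
    WeierstrassCurve.b₆, WeierstrassCurve.b₈]
  norm_num

/-- numerator of the `x`-coordinate of the `7`-isogeny -/
def num7 {K : Type} [Field K] (x : K) : K :=
  x ^ 7 + 270 * x ^ 6 + 109575 * x ^ 5 + 8446500 * x ^ 4 + 265629375 * x ^ 3 +
    2143968750 * x ^ 2 + 7291265625 * x - 58320000000

/-- kernel polynomial of the `7`-isogeny -/
def psi7 {K : Type} [Field K] (x : K) : K := x ^ 3 + 135 * x ^ 2 + 2475 * x + 1125

/-- numerator of the derivative of the `x`-coordinate of the `7`-isogeny -/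
def der7 {K : Type} [Field K] (x : K) : K :=
  x ^ 9 + 405 * x ^ 8 - 24300 * x ^ 7 + 580500 * x ^ 6 + 18528750 * x ^ 5 - 2009306250 * x ^ 4 +
    80114062500 * x ^ 3 - 1706543437500 * x ^ 2 + 18270847265625 * x + 296886673828125

section points

variable {K : Type} [Field K]

theorem eqn_a [CharZero K] {a b c s : K}
    (hs : s ^ 2 = 64 * c ^ 12 - 48 * c ^ 8 * (a * b) ^ 2 + 1137 * c ^ 4 * (a * b) ^ 4 - (a * b) ^ 6)
    (hc : a ^ 2 + b ^ 2 = 2 * c ^ 2) (h1 : a ≠ 0) :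
    (8 * s / a ^ 6) ^ 2 = (((a ^ 2 + 2 * b ^ 2) / a ^ 2) ^ 2) ^ 3 +
      1134 * (((a ^ 2 + 2 * b ^ 2) / a ^ 2) ^ 2) ^ 2 -
      2223 * (((a ^ 2 + 2 * b ^ 2) / a ^ 2) ^ 2) + 1152 := by
  have hc2 : c ^ 2 = (a ^ 2 + b ^ 2) / 2 := by rw [hc]; ring
  have hs' : s ^ 2 = (a ^ 2 + b ^ 2) ^ 6 - 3 * (a ^ 2 + b ^ 2) ^ 4 * (a * b) ^ 2 +
      1137 / 4 * (a ^ 2 + b ^ 2) ^ 2 * (a * b) ^ 4 - (a * b) ^ 6 := by
    rw [hs, show c ^ 12 = (c ^ 2) ^ 6 by ring, show c ^ 8 = (c ^ 2) ^ 4 by ring,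
      show c ^ 4 = (c ^ 2) ^ 2 by ring, hc2]
    ring
  rw [div_pow, mul_pow, hs']
  field_simp
  ring

theorem eqn_b {b c s : K}
    (hs : s ^ 2 = 64 * c ^ 12 - 48 * c ^ 8 * (b ^ 2 * (2 * c ^ 2 - b ^ 2)) +
      1137 * c ^ 4 * (b ^ 2 * (2 * c ^ 2 - b ^ 2)) ^ 2 - (b ^ 2 * (2 * c ^ 2 - b ^ 2)) ^ 3)
    (h1 : b ≠ 0) (h2 : c ≠ 0) :
    (s / (b ^ 3 * c ^ 3)) ^ 2 =
      ((4 * c ^ 4 - 2 * b ^ 2 * c ^ 2 + b ^ 4) / (b ^ 2 * c ^ 2)) ^ 3 +
      1125 * ((4 * c ^ 4 - 2 * b ^ 2 * c ^ 2 + b ^ 4) / (b ^ 2 * c ^ 2)) - 2250 := by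
  rw [div_pow, hs]
  field_simp
  ring

theorem eqn_iso {x y : K} (h : y ^ 2 = x ^ 3 + 1125 * x - 2250) (h1 : psi7 x ≠ 0) :
    (y * der7 x / psi7 x ^ 3) ^ 2 = (num7 x / psi7 x ^ 2 - 378) ^ 3 +
      1134 * (num7 x / psi7 x ^ 2 - 378) ^ 2 - 2223 * (num7 x / psi7 x ^ 2 - 378) + 1152 := by
  have key : y ^ 2 * der7 x ^ 2 = num7 x ^ 3 - 430875 * num7 x * psi7 x ^ 4 +
      108861750 * psi7 x ^ 6 := by
    rw [h]
    unfold num7 psi7 der7
    ring
  rw [div_pow, mul_pow, key]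
  field_simp
  ring

variable [Algebra ℚ K] (D : Derivation ℚ K K)

theorem dx_a [CharZero K] {a b s w : K} (hw : a * D b - b * D a = w) (h1 : a ≠ 0) (hs0 : s ≠ 0) :
    D (((a ^ 2 + 2 * b ^ 2) / a ^ 2) ^ 2) / (8 * s / a ^ 6) =
      a * b * (a ^ 2 + 2 * b ^ 2) * w / s := by
  have h2 : D (2 : K) = 0 := by simpa using D.map_natCast 2
  rw [← hw, Derivation.leibniz_pow, Derivation.leibniz_div]
  simp only [Derivation.leibniz, Derivation.leibniz_pow, map_add, smul_eq_mul, nsmul_eq_mul, h2,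
    Nat.add_one_sub_one, pow_one, Nat.cast_ofNat]
  field_simp
  ring

theorem dx_b [CharZero K] {b c s v : K} (hv : b * D c - c * D b = v) (h1 : b ≠ 0) (h2 : c ≠ 0)
    (hs0 : s ≠ 0) :
    D ((4 * c ^ 4 - 2 * b ^ 2 * c ^ 2 + b ^ 4) / (b ^ 2 * c ^ 2)) / (s / (b ^ 3 * c ^ 3)) =
      v * (8 * c ^ 4 - 2 * b ^ 4) / s := by
  have e2 : D (2 : K) = 0 := by simpa using D.map_natCast 2
  have e4 : D (4 : K) = 0 := by simpa using D.map_natCast 4
  rw [← hv, Derivation.leibniz_div]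
  simp only [Derivation.leibniz, Derivation.leibniz_pow, map_add, map_sub, smul_eq_mul,
    nsmul_eq_mul, e2, e4]
  field_simp
  push_cast
  ring

theorem dx_iso [CharZero K] {x y : K} (h1 : psi7 x ≠ 0) (h2 : der7 x ≠ 0) :
    D (num7 x / psi7 x ^ 2 - 378) / (y * der7 x / psi7 x ^ 3) = D x / y := by
  have hn : ∀ n : ℕ, D (n : K) = 0 := fun n => D.map_natCast n
  have e0 : D (378 : K) = 0 := by simpa using hn 378
  have dp : D (psi7 x) = (3 * x ^ 2 + 270 * x + 2475) * D x := by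
    unfold psi7
    have a1 : D (135 : K) = 0 := by simpa using hn 135
    have a2 : D (2475 : K) = 0 := by simpa using hn 2475
    have a3 : D (1125 : K) = 0 := by simpa using hn 1125
    simp only [Derivation.leibniz, Derivation.leibniz_pow, map_add, smul_eq_mul,
      nsmul_eq_mul, a1, a2, a3]
    push_cast
    ring
  have dn : D (num7 x) = (7 * x ^ 6 + 1620 * x ^ 5 + 547875 * x ^ 4 + 33786000 * x ^ 3 +
      796888125 * x ^ 2 + 4287937500 * x + 7291265625) * D x := by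
    unfold num7
    have a1 : D (270 : K) = 0 := by simpa using hn 270
    have a2 : D (109575 : K) = 0 := by simpa using hn 109575
    have a3 : D (8446500 : K) = 0 := by simpa using hn 8446500
    have a4 : D (265629375 : K) = 0 := by simpa using hn 265629375
    have a5 : D (2143968750 : K) = 0 := by simpa using hn 2143968750
    have a6 : D (7291265625 : K) = 0 := by simpa using hn 7291265625
    have a7 : D (58320000000 : K) = 0 := by simpa using hn 58320000000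
    simp only [Derivation.leibniz, Derivation.leibniz_pow, map_add, map_sub, smul_eq_mul,
      nsmul_eq_mul, a1, a2, a3, a4, a5, a6, a7]
    push_cast
    ring
  have key : D (num7 x) * psi7 x - 2 * num7 x * D (psi7 x) = der7 x * D x := by
    rw [dp, dn]
    unfold num7 psi7 der7
    ring
  have hd : D (num7 x / psi7 x ^ 2 - 378) = der7 x * D x / psi7 x ^ 3 := by
    rw [map_sub, e0, sub_zero, Derivation.leibniz_div, ← key]
    simp only [Derivation.leibniz_pow, smul_eq_mul, nsmul_eq_mul]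
    field_simp
    push_cast
    ring
  rw [hd]
  by_cases hy : y = 0
  · simp [hy]
  · field_simp

end points

section final

variable {K : Type} [Field K] [Algebra ℚ K]

theorem map_a1 : (E0⁄K).a₁ = 0 := by simp [E0, WeierstrassCurve.baseChange, WeierstrassCurve.map]
theorem map_a3 : (E0⁄K).a₃ = 0 := by simp [E0, WeierstrassCurve.baseChange, WeierstrassCurve.map]
theorem map_a2 : (E0⁄K).a₂ = 1134 := by simp [E0, WeierstrassCurve.baseChange, WeierstrassCurve.map]
theorem map_a4 : (E0⁄K).a₄ = -2223 := by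
  simp [E0, WeierstrassCurve.baseChange, WeierstrassCurve.map]
theorem map_a6 : (E0⁄K).a₆ = 1152 := by simp [E0, WeierstrassCurve.baseChange, WeierstrassCurve.map]

theorem nonsing {x y : K} (h : y ^ 2 = x ^ 3 + 1134 * x ^ 2 - 2223 * x + 1152) :
    (E0⁄K).toAffine.Nonsingular x y := by
  apply (Affine.equation_iff_nonsingular_of_Δ_ne_zero ?_).1
  · rw [Affine.equation_iff, map_a1, map_a2, map_a3, map_a4, map_a6, h]
    ring
  · have h0 : (E0⁄K).Δ = algebraMap ℚ K E0.Δ := by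
      simp [WeierstrassCurve.baseChange]
    rw [h0]
    have := E0_elliptic
    rw [isElliptic_iff] at this
    exact (_root_.map_ne_zero _).2 this.ne_zero

variable [DecidableEq K] [CharZero K]

/-- `delta` as a group homomorphism on `E0(K)`. -/
def deltaHom (D : Derivation ℚ K K) : (E0⁄K).toAffine.Point →+ K :=
  AddMonoidHom.mk' (delta D (E0⁄K)) (delta_add D map_a1 map_a3
    (by rw [map_a2]; simpa using D.map_natCast 1134)
    (by rw [map_a4, map_neg]; simpa using D.map_natCast 2223)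
    (by rw [map_a6]; simpa using D.map_natCast 1152))

theorem deltaHom_const (D : Derivation ℚ K K) (Q : (E0⁄ℚ).toAffine.Point) :
    deltaHom D (Affine.Point.baseChange ℚ K Q) = 0 := by
  rcases Q with _ | ⟨x, y, h⟩
  · rfl
  · change D (algebraMap ℚ K x) / _ = 0
    rw [Derivation.map_algebraMap, zero_div]

theorem psi7_hom (N M : K) (hM : M ≠ 0) :
    psi7 (N / M) * M ^ 3 = N ^ 3 + 135 * N ^ 2 * M + 2475 * N * M ^ 2 + 1125 * M ^ 3 := by
  unfold psi7
  field_simp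

theorem der7_hom (N M : K) (hM : M ≠ 0) :
    der7 (N / M) * M ^ 9 = N ^ 9 + 405 * N ^ 8 * M - 24300 * N ^ 7 * M ^ 2 +
      580500 * N ^ 6 * M ^ 3 + 18528750 * N ^ 5 * M ^ 4 - 2009306250 * N ^ 4 * M ^ 5 +
      80114062500 * N ^ 3 * M ^ 6 - 1706543437500 * N ^ 2 * M ^ 7 +
      18270847265625 * N * M ^ 8 + 296886673828125 * M ^ 9 := by
  unfold der7
  field_simp

/-- The four independent points over a field with a derivation. -/
theorem core (D : Derivation ℚ K K) (t s : K) (ht : Transcendental ℚ t)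
    (hs : s ^ 2 = aeval t fPoly) (hDt : D t = 1) :
    ∃ P : Fin 4 → (E0⁄K).toAffine.Point, ∀ n : Fin 4 → ℤ,
      (∃ Q : (E0⁄ℚ).toAffine.Point, ∑ i, n i • P i = Affine.Point.baseChange ℚ K Q) → n = 0 := by
  have hae : ∀ p : ℚ[X], p ≠ 0 → aeval t p ≠ 0 :=
    fun p hp h => hp (transcendental_iff.1 ht p h)
  have hne : ∀ p : ℚ[X], p.eval 0 ≠ 0 → aeval t p ≠ 0 := by
    intro p hp
    refine hae p ?_
    rintro rfl
    simp at hp
  -- the elements `a`, `b`, `c` of the function field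
  obtain ⟨a, ha⟩ : ∃ a, a = aeval t aP := ⟨_, rfl⟩
  obtain ⟨b, hb⟩ : ∃ b, b = aeval t bP := ⟨_, rfl⟩
  obtain ⟨c, hc⟩ : ∃ c, c = aeval t cP := ⟨_, rfl⟩
  have ha' : a = t ^ 2 - 2 * t - 1 := by rw [ha, aeval_aP]
  have hb' : b = t ^ 2 + 2 * t - 1 := by rw [hb, aeval_bP]
  have hc' : c = t ^ 2 + 1 := by rw [hc, aeval_cP]
  have h2 : D (2 : K) = 0 := by simpa using D.map_natCast 2
  have hDa : D a = 2 * t - 2 := by
    rw [ha']
    simp [hDt, h2]
  have hDb : D b = 2 * t + 2 := by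
    rw [hb']
    simp [hDt, h2]
  have hDc : D c = 2 * t := by
    rw [hc']
    simp [hDt]
  have hfs : s ^ 2 = 64 * c ^ 12 - 48 * c ^ 8 * (a * b) ^ 2 + 1137 * c ^ 4 * (a * b) ^ 4 -
      (a * b) ^ 6 := by
    rw [hs, aeval_fPoly, ha, hb, hc]
  have habc : a ^ 2 + b ^ 2 = 2 * c ^ 2 := by
    rw [ha', hb', hc']; ring
  have ha2 : a ^ 2 = 2 * c ^ 2 - b ^ 2 := by rw [← habc]; ring
  have hb2 : b ^ 2 = 2 * c ^ 2 - a ^ 2 := by rw [← habc]; ring
  have ha0 : a ≠ 0 := by rw [ha]; exact hne _ (by simp [aP])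
  have hb0 : b ≠ 0 := by rw [hb]; exact hne _ (by simp [bP])
  have hc0 : c ≠ 0 := by rw [hc]; exact hne _ (by simp [cP])
  have hs0 : s ≠ 0 := by
    intro h
    have := hne fPoly (by simp [fPoly, aP, bP, cP]; norm_num)
    rw [← hs, h] at this
    simp at this
  have hw1 : a * D b - b * D a = -4 * c := by
    rw [hDa, hDb, ha', hb', hc']; ring
  have hw2 : b * D a - a * D b = 4 * c := by
    rw [hDa, hDb, ha', hb', hc']; ring
  have hv1 : b * D c - c * D b = 2 * a := by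
    rw [hDc, hDb, ha', hb', hc']; ring
  have hv2 : a * D c - c * D a = -2 * b := by
    rw [hDc, hDa, ha', hb', hc']; ring
  have q1 := eqn_a hfs habc ha0
  have q2 := eqn_a (a := b) (b := a) (c := c) (s := s) (by rw [hfs]; ring)
    (by rw [← habc]; ring) hb0
  have q3 := eqn_b (b := b) (c := c) (s := s)
    (by rw [hfs, ← ha2]; ring) hb0 hc0
  have q4 := eqn_b (b := a) (c := c) (s := s)
    (by rw [hfs, ← hb2]; ring) ha0 hc0
  -- nonvanishing of the kernel polynomial and of the derivative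
  have nv : ∀ (β : K) (βP : ℚ[X]), β = aeval t βP → β ≠ 0 → βP.eval 0 = -1 →
      psi7 ((4 * c ^ 4 - 2 * β ^ 2 * c ^ 2 + β ^ 4) / (β ^ 2 * c ^ 2)) ≠ 0 ∧
      der7 ((4 * c ^ 4 - 2 * β ^ 2 * c ^ 2 + β ^ 4) / (β ^ 2 * c ^ 2)) ≠ 0 := by
    intro β βP hβ hβ0 hev
    obtain ⟨M, hM⟩ : ∃ M, M = β ^ 2 * c ^ 2 := ⟨_, rfl⟩
    obtain ⟨N, hN⟩ : ∃ N, N = 4 * c ^ 4 - 2 * β ^ 2 * c ^ 2 + β ^ 4 := ⟨_, rfl⟩
    have hM0 : M ≠ 0 := by
      rw [hM]
      exact mul_ne_zero (pow_ne_zero _ hβ0) (pow_ne_zero _ hc0)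
    rw [← hM, ← hN]
    obtain ⟨MP, hMP⟩ : ∃ MP, MP = βP ^ 2 * cP ^ 2 := ⟨_, rfl⟩
    obtain ⟨NP, hNP⟩ : ∃ NP, NP = 4 * cP ^ 4 - 2 * βP ^ 2 * cP ^ 2 + βP ^ 4 := ⟨_, rfl⟩
    have hMa : M = aeval t MP := by rw [hM, hβ, hc, hMP]; simp
    have hNa : N = aeval t NP := by
      rw [hN, hβ, hc, hNP]; simp [map_ofNat]
    have eM : MP.eval 0 = 1 := by rw [hMP]; simp [hev, cP]
    have eN : NP.eval 0 = 3 := by rw [hNP]; simp [hev, cP]; norm_num
    constructor
    · intro h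
      have h1 := psi7_hom N M hM0
      rw [h, zero_mul] at h1
      refine hne (NP ^ 3 + 135 * NP ^ 2 * MP + 2475 * NP * MP ^ 2 + 1125 * MP ^ 3) ?_ ?_
      · simp [eM, eN]; norm_num
      · simp only [map_add, map_mul, map_pow, map_ofNat, ← hMa, ← hNa]
        exact h1.symm
    · intro h
      have h1 := der7_hom N M hM0
      rw [h, zero_mul] at h1
      refine hne (NP ^ 9 + 405 * NP ^ 8 * MP - 24300 * NP ^ 7 * MP ^ 2 +
        580500 * NP ^ 6 * MP ^ 3 + 18528750 * NP ^ 5 * MP ^ 4 - 2009306250 * NP ^ 4 * MP ^ 5 +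
        80114062500 * NP ^ 3 * MP ^ 6 - 1706543437500 * NP ^ 2 * MP ^ 7 +
        18270847265625 * NP * MP ^ 8 + 296886673828125 * MP ^ 9) ?_ ?_
      · simp [eM, eN]; norm_num
      · simp only [map_add, map_sub, map_mul, map_pow, map_ofNat, ← hMa, ← hNa]
        exact h1.symm
  obtain ⟨n3, m3⟩ := nv b bP hb hb0 (by simp [bP])
  obtain ⟨n4, m4⟩ := nv a aP ha ha0 (by simp [aP])
  have r3 := eqn_iso q3 n3
  have r4 := eqn_iso q4 n4
  refine ⟨![.some _ _ (nonsing q1), .some _ _ (nonsing q2), .some _ _ (nonsing r3),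
    .some _ _ (nonsing r4)], ?_⟩
  rintro n ⟨Q, hQ⟩
  have hsum := congrArg (deltaHom D) hQ
  rw [deltaHom_const, map_sum, Fin.sum_univ_four] at hsum
  simp only [map_zsmul, Matrix.cons_val_zero, Matrix.cons_val_one, Matrix.cons_val] at hsum
  have e1 : deltaHom D (.some _ _ (nonsing q1)) = a * b * (a ^ 2 + 2 * b ^ 2) * (-4 * c) / s :=
    dx_a D hw1 ha0 hs0
  have e2 : deltaHom D (.some _ _ (nonsing q2)) = b * a * (b ^ 2 + 2 * a ^ 2) * (4 * c) / s :=
    dx_a D hw2 hb0 hs0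
  have e3 : deltaHom D (.some _ _ (nonsing r3)) = (2 * a) * (8 * c ^ 4 - 2 * b ^ 4) / s :=
    (dx_iso D n3 m3).trans (dx_b D hv1 hb0 hc0 hs0)
  have e4 : deltaHom D (.some _ _ (nonsing r4)) = (-2 * b) * (8 * c ^ 4 - 2 * a ^ 4) / s :=
    (dx_iso D n4 m4).trans (dx_b D hv2 ha0 hc0 hs0)
  rw [e1, e2, e3, e4] at hsum
  simp only [zsmul_eq_mul] at hsum
  have hpoly : aeval t (C (n 0 : ℚ) * (aP * bP * (aP ^ 2 + 2 * bP ^ 2) * (-4 * cP)) +
      C (n 1 : ℚ) * (bP * aP * (bP ^ 2 + 2 * aP ^ 2) * (4 * cP)) +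
      C (n 2 : ℚ) * ((2 * aP) * (8 * cP ^ 4 - 2 * bP ^ 4)) +
      C (n 3 : ℚ) * ((-2 * bP) * (8 * cP ^ 4 - 2 * aP ^ 4))) = 0 := by
    simp only [map_add, map_sub, map_mul, map_pow, map_neg, map_ofNat, aeval_C, ← ha, ← hb, ← hc,
      map_intCast]
    field_simp at hsum
    linear_combination hsum
  have hp0 := transcendental_iff.1 ht _ hpoly
  have c0 := congrArg (fun p : ℚ[X] => p.eval 0) hp0
  have c1 := congrArg (fun p : ℚ[X] => p.eval 1) hp0
  have c2 := congrArg (fun p : ℚ[X] => p.eval (-1)) hp0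
  have c3 := congrArg (fun p : ℚ[X] => p.eval 2) hp0
  simp [aP, bP, cP] at c0 c1 c2 c3
  norm_num at c0 c1 c2 c3
  have z2 : (n 2 : ℚ) = 0 := by linarith
  have z3 : (n 3 : ℚ) = 0 := by linarith
  have z0 : (n 0 : ℚ) = 0 := by linarith
  have z1 : (n 1 : ℚ) = 0 := by linarith
  funext i
  fin_cases i
  · exact_mod_cast z0
  · exact_mod_cast z1
  · exact_mod_cast z2
  · exact_mod_cast z3

end final

/-- The hyperelliptic curve `C : s² = f(t)` with `f = fPoly` (squarefree of degree `24`, so that `C`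
has genus `11`) has a Jacobian containing four copies of the elliptic curve `E0`. -/
theorem result : fPoly.Separable ∧ fPoly.natDegree = 24 ∧ E0.IsElliptic ∧
    JacobianContainsPower fPoly E0 4 := by
  refine ⟨fPoly_separable, fPoly_natDegree, E0_elliptic, ?_⟩
  have hirr : Fact (Irreducible
      (X ^ 2 - C (algebraMap ℚ[X] (RatFunc ℚ) fPoly) : (RatFunc ℚ)[X])) :=
    ⟨irr fPoly_separable (by rw [fPoly_natDegree]; norm_num)⟩
  obtain ⟨ht, hs, htop⟩ := isFunctionField fPoly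
  obtain ⟨D, hD⟩ := exists_derivation fPoly
  have hDt : D (algebraMap ℚ[X] (FF fPoly) X) = 1 := by rw [hD]; simp
  let _ : DecidableEq (FF fPoly) := Classical.decEq _
  have hcz : CharZero (FF fPoly) := algebraRat.charZero _
  exact ⟨FF fPoly, inferInstance, Classical.decEq _, inferInstance,
    ⟨_, _, ht, hs, htop⟩, core D _ _ ht hs hDt⟩

end

end Pool.Agent.Results.MP_aa83bd_nt.FourCopies
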